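import Pool.Agent.H887.BK.D2

set_option autoImplicit false
set_option linter.unusedSectionVars false
set_option linter.unusedVariables false

/-! Proofs of `S_Res`, `S_Nat` and `S_BDiv`. -/

namespace Pool.Agent.H795.BK

open MvPolynomial Pool.Agent.H425 Pool.Agent.H887.BK

/-! ### The residue of the kernel -/

section Res

variable {p d : ℕ} [hp : Fact p.Prime] {K R : Type} [CommRing K] [CommRing R] [IsDomain R]
  (S : Pre p d K R) {ι : Type}

theorem res_p (hd : 0 < d) : S.res ((p : ℕ) : R) = 0 := by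
  have h1 : ((p : ℕ) : R) = -S.lam ^ (d * (p - 1)) := by rw [S.lam_pow, neg_neg]
  have h2 : d * (p - 1) ≠ 0 := by
    have := hp.out.one_lt
    exact Nat.mul_ne_zero (by omega) (by omega)
  rw [h1, map_neg, map_pow, S.res_lam, zero_pow h2, neg_zero]

theorem res_zp (hd : 0 < d) (z : ℤ_[p]) : S.res (S.zp z) = ((PadicInt.toZMod z).val : K) := by
  have h1 : z - (((PadicInt.toZMod z).val : ℕ) : ℤ_[p]) ∈ RingHom.ker (PadicInt.toZMod (p := p)) := by
    rw [RingHom.mem_ker, map_sub, map_natCast, ZMod.natCast_zmod_val, sub_self]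
  rw [PadicInt.ker_toZMod, PadicInt.maximalIdeal_eq_span_p, Ideal.mem_span_singleton] at h1
  obtain ⟨t, ht⟩ := h1
  have h2 : z = (((PadicInt.toZMod z).val : ℕ) : ℤ_[p]) + (p : ℤ_[p]) * t := by
    rw [← ht]; ring
  have h3 : S.res (S.zp z) = S.res (S.zp ((((PadicInt.toZMod z).val : ℕ) : ℤ_[p]) + (p : ℤ_[p]) * t)) := by
    rw [← h2]
  rw [h3, map_add, map_add, map_mul, map_mul, map_natCast, map_natCast, map_natCast, res_p S hd,
    zero_mul, add_zero]

theorem de_zero {j : ℕ} (h : 2 * j < p * (p - 1)) : Pre.de p j = 0 := by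
  unfold Pre.de
  exact Nat.div_eq_of_lt h

theorem norm_bb_le {j : ℕ} (h : 2 * j < p * (p - 1)) : ‖PowerSeries.coeff j (AH.bb p)‖ ≤ 1 := by
  have h1 := AH.norm_bb p j
  rwa [Nat.div_eq_of_lt h, pow_zero] at h1

theorem res_zpq (hd : 0 < d) {j : ℕ} (h : 2 * j < p * (p - 1)) :
    S.res (S.zpq (PowerSeries.coeff j (AH.bb p))) = (ebn p j : K) := by
  have h1 := norm_bb_le h
  rw [Pre.zpq, dif_pos h1, res_zp S hd, ebn, dif_pos h1]

theorem th_eq {j : ℕ} (h : 2 * j < p * (p - 1)) :
    S.th j = S.lam ^ (d * j) * S.zpq (PowerSeries.coeff j (AH.bb p)) := by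
  rw [Pre.th, de_zero h, Pre.pi, ← pow_mul]
  simp

/-- the divisibility and the residue of the coefficients of small degree -/
def Good (F : MvPowerSeries ι R) (G : MvPowerSeries ι K) : Prop :=
  ∀ w : ι →₀ ℕ, 2 * w.degree < d * (p * (p - 1)) →
    ∃ y : R, MvPowerSeries.coeff w F = S.lam ^ w.degree * y ∧ S.res y = MvPowerSeries.coeff w G

theorem Good_mul {F F' : MvPowerSeries ι R} {G G' : MvPowerSeries ι K} (h : Good S F G)
    (h' : Good S F' G') : Good S (F * F') (G * G') := by
  classical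
  intro w hw
  rw [MvPowerSeries.coeff_mul, MvPowerSeries.coeff_mul]
  have key : ∀ x : (ι →₀ ℕ) × (ι →₀ ℕ), x ∈ Finset.HasAntidiagonal.antidiagonal w →
      ∃ y : R, MvPowerSeries.coeff x.1 F * MvPowerSeries.coeff x.2 F' = S.lam ^ w.degree * y ∧
        S.res y = MvPowerSeries.coeff x.1 G * MvPowerSeries.coeff x.2 G' := by
    intro x hx
    rw [Finset.HasAntidiagonal.mem_antidiagonal] at hx
    have hdeg : x.1.degree + x.2.degree = w.degree := by rw [← map_add, hx]
    obtain ⟨y, hy, hy'⟩ := h x.1 (by omega)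
    obtain ⟨z, hz, hz'⟩ := h' x.2 (by omega)
    refine ⟨y * z, ?_, ?_⟩
    · rw [hy, hz, ← hdeg, pow_add]; ring
    · rw [map_mul, hy', hz']
  choose! y hy hy' using key
  refine ⟨∑ x ∈ Finset.HasAntidiagonal.antidiagonal w, y x, ?_, ?_⟩
  · rw [Finset.mul_sum]
    exact Finset.sum_congr rfl hy
  · rw [map_sum]
    exact Finset.sum_congr rfl hy'

theorem Good_one : Good S (1 : MvPowerSeries ι R) (1 : MvPowerSeries ι K) := by
  classical
  intro w hw
  rw [MvPowerSeries.coeff_one, MvPowerSeries.coeff_one]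
  split_ifs with h
  · exact ⟨1, by rw [h, map_zero, pow_zero, mul_one], map_one _⟩
  · exact ⟨0, by rw [mul_zero], map_zero _⟩

theorem Good_prod {T : Type} (s : Finset T) (F : T → MvPowerSeries ι R) (G : T → MvPowerSeries ι K)
    (h : ∀ l ∈ s, Good S (F l) (G l)) : Good S (∏ l ∈ s, F l) (∏ l ∈ s, G l) := by
  classical
  induction s using Finset.induction_on with
  | empty => simpa using Good_one S
  | insert i s hi ih =>
    rw [Finset.prod_insert hi, Finset.prod_insert hi]
    exact Good_mul S (h i (by simp)) (ih fun l hl => h l (by simp [hl]))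

theorem coeff_EKs [Fintype ι] [DecidableEq ι] {L : Type} [CommRing L] (s : ι →₀ ℕ) (hs : s ≠ 0)
    (c : L) (j : ℕ) : MvPowerSeries.coeff (j • s) (EKs p s c) = (ebn p j : L) * c ^ j := by
  classical
  change ∑ j' ∈ Finset.range ((j • s).degree + 1),
    (if j' • s = j • s then (ebn p j' : L) * c ^ j' else 0) = _
  rw [Finset.sum_eq_single j]
  · rw [if_pos rfl]
  · intro b _ hb
    rw [if_neg]
    intro h
    exact hb (smul_inj hs h)
  · intro h
    exfalso
    apply h
    rw [Finset.mem_range, map_nsmul, smul_eq_mul]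
    have := Pre.degree_pos hs
    nlinarith

theorem coeff_EKs_ne [Fintype ι] [DecidableEq ι] {L : Type} [CommRing L] (s : ι →₀ ℕ)
    (c : L) (w : ι →₀ ℕ) (h : ∀ j : ℕ, j • s ≠ w) : MvPowerSeries.coeff w (EKs p s c) = 0 := by
  classical
  change ∑ j' ∈ Finset.range (w.degree + 1),
    (if j' • s = w then (ebn p j' : L) * c ^ j' else 0) = _
  refine Finset.sum_eq_zero fun j _ => ?_
  rw [if_neg (h j)]

theorem Good_Fs [Fintype ι] [DecidableEq ι] (hd : 0 < d) (s : ι →₀ ℕ) (hs : s.degree = d) (c : R) :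
    Good S (S.Fs s c) (EKs p s (S.res c)) := by
  have hs0 : s ≠ 0 := by
    rintro rfl
    rw [map_zero] at hs
    omega
  intro w hw
  by_cases h : ∃ j : ℕ, j • s = w
  · obtain ⟨j, rfl⟩ := h
    have hdeg : (j • s).degree = d * j := by rw [map_nsmul, smul_eq_mul, hs, mul_comm]
    rw [hdeg] at hw ⊢
    have hj : 2 * j < p * (p - 1) := by
      have h1 : d * (2 * j) < d * (p * (p - 1)) := by
        calc d * (2 * j) = 2 * (d * j) := by ring
          _ < _ := hw
      exact lt_of_mul_lt_mul_left h1 (Nat.zero_le _)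
    refine ⟨S.zpq (PowerSeries.coeff j (AH.bb p)) * c ^ j, ?_, ?_⟩
    · rw [S.coeff_Fs s hs0, th_eq S hj]; ring
    · rw [map_mul, map_pow, res_zpq S hd hj, coeff_EKs s hs0]
  · push Not at h
    refine ⟨0, ?_, ?_⟩
    · rw [S.coeff_Fs_ne s c w h, mul_zero]
    · rw [map_zero, coeff_EKs_ne s _ w h]

end Res

theorem h_Res : S_Res := by
  classical
  intro ι _ _ p d _ K R _ _ _ S c V U hp4 hd hV
  have h0 : (0 : ι →₀ ℕ) ∉ Sd ι d := by
    rw [mem_Sd, map_zero]
    omega
  have hdle : ∀ s ∈ Sd ι d, s.degree ≤ d := fun s hs => ((mem_Sd d s).1 hs).le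
  by_cases hU : U ≤ p • V
  · have hG : Good S (S.FF (Sd ι d) c) (∏ s ∈ Sd ι d, EKs p s (S.res (c s))) := by
      rw [Pre.FF]
      exact Good_prod S _ _ _ fun s hs => Good_Fs S hd s ((mem_Sd d s).1 hs) (c s)
    have hdeg : (p • V - U).degree + U.degree = p * V.degree := by
      rw [← map_add, tsub_add_cancel_of_le hU, map_nsmul, smul_eq_mul]
    have hppos : 0 < p := by omega
    have hlt : 2 * (p • V - U).degree < d * (p * (p - 1)) := by
      have h1 : p * (2 * V.degree) < p * (d * (p - 1)) := Nat.mul_lt_mul_of_pos_left hV hppos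
      have h2 : 2 * (p • V - U).degree ≤ 2 * (p * V.degree) := by omega
      calc 2 * (p • V - U).degree ≤ 2 * (p * V.degree) := h2
        _ = p * (2 * V.degree) := by ring
        _ < p * (d * (p - 1)) := h1
        _ = _ := by ring
    obtain ⟨y, hy, hy'⟩ := hG (p • V - U) hlt
    refine ⟨y, ?_, ?_⟩
    · have hk := (S.ker_spec (by omega) (Sd ι d) c h0 hdle V U).2
      rw [Pre.Gk, if_pos hU, hy] at hk
      apply mul_left_cancel₀ (pow_ne_zero V.degree S.lam_ne)
      rw [hk, ← mul_assoc, ← mul_assoc, ← pow_add, ← pow_add]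
      congr 2
      have h3 : (p - 1) * V.degree + V.degree = p * V.degree := by
        rw [← Nat.succ_mul]
        congr 1
        omega
      omega
    · rw [kap, if_pos hU]
      exact hy'
  · refine ⟨0, ?_, ?_⟩
    · rw [S.ker_eq_zero (by omega) (Sd ι d) c h0 hdle V U hU, mul_zero]
    · rw [kap, if_neg hU, map_zero]

/-! ### Naturality -/

section Nat'

variable {ι : Type} [Fintype ι] [DecidableEq ι] {L L' : Type} [CommRing L] [CommRing L']
  (φ : L →+* L')

theorem map_form (d : ℕ) (c : (ι →₀ ℕ) → L) : map φ (form d c) = form d (fun s => φ (c s)) := by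
  rw [form, form, map_sum]
  refine Finset.sum_congr rfl fun s _ => ?_
  rw [map_monomial]

theorem map_leadv (H : MvPolynomial ι L) (e : ℕ) (he : 0 < e) (w : ι →₀ ℕ) :
    map φ (leadv H e he w) = leadv (map φ H) e he w := by
  rw [leadv, leadv, map_mul, map_prod, map_monomial, map_one]
  congr 1
  refine Finset.prod_congr rfl fun i _ => ?_
  rw [map_pow, pderiv_map]

theorem map_LM (H : MvPolynomial ι L) (e : ℕ) (he : 0 < e) (j : ℕ) :
    φ.mapMatrix (LM H e he j) = LM (map φ H) e he j := by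
  ext v w
  rw [RingHom.mapMatrix_apply, Matrix.map_apply, LM, LM, ← map_leadv, coeff_map]

theorem map_LMf (d : ℕ) (c : (ι →₀ ℕ) → L) (e : ℕ) (he : 0 < e) (j : ℕ) :
    φ.mapMatrix (LM (form d c) e he j) = LM (form d (fun s => φ (c s))) e he j := by
  rw [map_LM, map_form]

theorem map_EKs (p : ℕ) [Fact p.Prime] (s : ι →₀ ℕ) (c : L) :
    MvPowerSeries.map φ (EKs p s c) = EKs p s (φ c) := by
  classical
  ext w
  rw [MvPowerSeries.coeff_map]
  change φ (∑ j ∈ Finset.range (w.degree + 1), (if j • s = w then (ebn p j : L) * c ^ j else 0)) =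
    ∑ j ∈ Finset.range (w.degree + 1), (if j • s = w then (ebn p j : L') * (φ c) ^ j else 0)
  rw [map_sum]
  refine Finset.sum_congr rfl fun j _ => ?_
  split_ifs
  · rw [map_mul, map_pow, map_natCast]
  · rw [map_zero]

theorem map_kap (p d : ℕ) [Fact p.Prime] (c : (ι →₀ ℕ) → L) (V U : ι →₀ ℕ) :
    φ (kap p d c V U) = kap p d (fun s => φ (c s)) V U := by
  classical
  rw [kap, kap]
  split_ifs
  · rw [← MvPowerSeries.coeff_map, map_prod]
    congr 1
    exact Finset.prod_congr rfl fun s _ => map_EKs φ p s (c s)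
  · rw [map_zero]

theorem map_Dl (p e : ℕ) (he : 0 < e) (c : (ι →₀ ℕ) → L) (j : ℕ) :
    φ (Dl p e he c j) = Dl p e he (fun s => φ (c s)) j := by
  rw [Dl, Dl, RingHom.map_det, map_LMf]
  simp only [map_pow]

theorem map_bnum (p e : ℕ) [Fact p.Prime] (he : 0 < e) (c : (ι →₀ ℕ) → L) (u' u : ι → Fin e) :
    φ (bnum p e he c u' u) = bnum p e he (fun s => φ (c s)) u' u := by
  rw [bnum, bnum, map_sum]
  refine Finset.sum_congr rfl fun v _ => ?_
  have h1 : (LM (form (e + 1) (fun s => φ (c s) ^ p)) e he (bdeg u')) =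
      φ.mapMatrix (LM (form (e + 1) (fun s => c s ^ p)) e he (bdeg u')) := by
    rw [map_LMf]
    simp only [map_pow]
  rw [map_mul, map_kap, h1, ← RingHom.map_adjugate]
  rfl

end Nat'

theorem h_Nat : S_Nat := by
  classical
  intro ι _ _ L L' _ _ φ p e _ he c
  refine ⟨fun j => ?_, fun j => map_Dl φ p e he c j, fun u' u => map_bnum φ p e he c u' u,
    fun j => ?_⟩
  · rw [RingHom.map_det, map_LMf]
  · rw [levdet, levdet, RingHom.map_det]
    congr 1
    ext u' u
    rw [RingHom.mapMatrix_apply, Matrix.map_apply, Matrix.submatrix_apply, Matrix.submatrix_apply,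
      map_bnum]

/-! ### The Frobenius matrix -/

theorem wt_le {ι : Type} [Fintype ι] {e : ℕ} (u : ι → Fin e) : wt u ≤ Fintype.card ι * e := by
  rw [wt, bdeg]
  have h1 : ∑ i, ((u i : ℕ) + 1) ≤ ∑ _i : ι, e := Finset.sum_le_sum fun i _ => (u i).2
  rw [Finset.sum_add_distrib] at h1
  simpa using h1

theorem degree_one1 {ι : Type} [Fintype ι] [DecidableEq ι] :
    (one1 : ι →₀ ℕ).degree = Fintype.card ι := by
  rw [Finsupp.degree_eq_sum]
  have h1 : ∀ i : ι, (one1 : ι →₀ ℕ) i = 1 := by
    intro i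
    rw [one1, oneA_apply, if_pos (Finset.mem_univ i)]
  simp [h1]

theorem Bm_eq {ι : Type} [Fintype ι] [DecidableEq ι] {L : Type} [CommRing L] {e : ℕ}
    {H' : MvPolynomial ι L} (D' : RdS e H') (k : (ι →₀ ℕ) → (ι →₀ ℕ) → L) (N : ℕ)
    (u' u : ι → Fin e) :
    Bm D' k N u' u = ∑ v ∈ DD ι N, k (v + one1) (emb u + one1) * D'.rd (monomial v 1) u' := by
  have h1 : kop k N one1 (monomial (emb u) 1) =
      ∑ v ∈ DD ι N, monomial v (k (v + one1) (emb u + one1)) := by
    rw [kop]
    have h2 : (monomial (emb u) (1 : L)) = basisMonomials ι L (emb u) := by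
      rw [coe_basisMonomials]
    rw [h2, Module.Basis.constr_basis]
  rw [Bm, h1, map_sum, Finset.sum_apply]
  refine Finset.sum_congr rfl fun v _ => ?_
  have h3 : (monomial v (k (v + one1) (emb u + one1)) : MvPolynomial ι L) =
      k (v + one1) (emb u + one1) • monomial v 1 := by
    rw [smul_monomial, smul_eq_mul, mul_one]
  rw [h3, map_smul, Pi.smul_apply, smul_eq_mul]

theorem rd_unique {ι : Type} [Fintype ι] [DecidableEq ι] {L : Type} [CommRing L] {e : ℕ}
    {H : MvPolynomial ι L} (hU : S_RdU) (D D' : RdS e H) (P : MvPolynomial ι L) (u : ι → Fin e) :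
    D'.rd P u = D.rd P u := by
  have h := hU ι L e H D' ((LinearMap.proj u).comp D.rd) (fun i P => by
    rw [LinearMap.comp_apply, D.rd_yop, map_zero]) P
  have h2 : ∀ u1, ((LinearMap.proj u).comp D.rd) (monomial (emb u1) (1 : L)) =
      if u = u1 then 1 else 0 := by
    intro u1
    rw [LinearMap.comp_apply, D.rd_mon, LinearMap.proj_apply, Pi.single_apply]
  simp only [h2] at h
  rw [LinearMap.comp_apply, LinearMap.proj_apply] at h
  rw [h]
  simp

theorem BDiv_aux (hRd : S_Rd) (hRdU : S_RdU) (hRes : S_Res) (ι : Type) [Fintype ι] [DecidableEq ι]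
    (p e : ℕ) [Fact p.Prime] (K R L : Type) [CommRing K]
    [CommRing R] [IsDomain R] [CommRing L] (S : Pre p (e + 1) K R) (π : R →+* L) (ρ : L →+* K)
    (c : (ι →₀ ℕ) → R) (N : ℕ) (he : 0 < e) (H : MvPolynomial ι L)
    (hH : H = form (e + 1) (fun s => π (c s ^ p)))
    (D' : RdS e H) (n : ℕ) (hn : n = Fintype.card ι) (hρ : ρ.comp π = S.res)
    (hp2 : 2 * (n * e) + 4 ≤ p) (hN : n * e ≤ N) (hdet : ∀ j, IsUnit (LM H e he j).det) :
    ∃ b : Matrix (ι → Fin e) (ι → Fin e) L, ∀ u' u,
      Bm D' (fun V U => π (S.ker (Sd ι (e + 1)) c V U)) N u' u =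
        π S.lam ^ ((p - 1) * wt u') * b u' u ∧
      Dl p e he (fun s => S.res (c s)) (bdeg u') * ρ (b u' u) =
        bnum p e he (fun s => S.res (c s)) u' u := by
  classical
  have hhom : H.IsHomogeneous (e + 1) := by
    rw [hH, form]
    refine MvPolynomial.IsHomogeneous.sum _ _ _ fun s hs => ?_
    exact isHomogeneous_monomial _ ((mem_Sd _ _).1 hs)
  obtain ⟨D, hD1, hD2⟩ := hRd ι L e he H hhom hdet
  have hDD' : ∀ P u, D'.rd P u = D.rd P u := fun P u => rd_unique hRdU D D' P u
  have hp3 : 3 ≤ p := by omega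
  have h0 : (0 : ι →₀ ℕ) ∉ Sd ι (e + 1) := by
    rw [mem_Sd, map_zero]
    omega
  have hdle : ∀ s ∈ Sd ι (e + 1), s.degree ≤ e + 1 := fun s hs => ((mem_Sd _ s).1 hs).le
  -- the kernel in the leading degree
  have hlead : ∀ (u' u : ι → Fin e) (v : Sd ι (bdeg u')), ∃ x : R,
      S.ker (Sd ι (e + 1)) c (v.1 + one1) (emb u + one1) = S.lam ^ ((p - 1) * wt u') * x ∧
      S.res x = kap p (e + 1) (fun s => S.res (c s)) (v.1 + one1) (emb u + one1) := by
    intro u' u v
    have hv : (v.1 + one1).degree = wt u' := by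
      rw [map_add, degree_one1, (mem_Sd _ _).1 v.2, wt]
    have hwt := wt_le u'
    rw [← hn] at hwt
    obtain ⟨x, hx, hx'⟩ := hRes ι p (e + 1) K R S c (v.1 + one1) (emb u + one1) (by omega)
      (by omega) (by
        rw [hv]
        have h1 : 2 * wt u' < p - 1 := by omega
        nlinarith)
    rw [hv] at hx
    exact ⟨x, hx, hx'⟩
  choose x hx hx' using hlead
  -- the kernel in higher degrees
  have hhigh : ∀ (u' u : ι → Fin e) (v : ι →₀ ℕ), bdeg u' < v.degree →
      ∃ y : R, S.ker (Sd ι (e + 1)) c (v + one1) (emb u + one1) =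
        S.lam ^ ((p - 1) * wt u') * (S.lam * y) := by
    intro u' u v hv
    have hvd : (v + one1).degree = v.degree + n := by rw [map_add, degree_one1, hn]
    have hwt := wt_le u'
    rw [← hn] at hwt
    by_cases hle : v.degree ≤ n * e
    · obtain ⟨y, hy, -⟩ := hRes ι p (e + 1) K R S c (v + one1) (emb u + one1) (by omega)
        (by omega) (by
          rw [hvd]
          have h1 : 2 * n ≤ 2 * (n * e) := by nlinarith
          have h2 : 2 * n + 3 ≤ p - 1 := by omega
          have h3 : (e + 1) * (2 * n + 3) ≤ (e + 1) * (p - 1) := Nat.mul_le_mul_left _ h2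
          nlinarith)
      have h4 : (p - 1) * wt u' + 1 ≤ (p - 1) * (v + one1).degree := by
        have h5 : wt u' + 1 ≤ (v + one1).degree := by
          rw [hvd, wt, ← hn]
          omega
        have h6 : (p - 1) * (wt u' + 1) ≤ (p - 1) * (v + one1).degree := Nat.mul_le_mul_left _ h5
        have h7 : (p - 1) * (wt u' + 1) = (p - 1) * wt u' + (p - 1) := by ring
        omega
      obtain ⟨r, hr⟩ := Nat.exists_eq_add_of_le h4
      refine ⟨S.lam ^ r * y, ?_⟩
      rw [hy, hr, pow_add, pow_succ]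
      ring
    · obtain ⟨y, hy⟩ := (S.ker_spec hp3 (Sd ι (e + 1)) c h0 hdle (v + one1) (emb u + one1)).1
      have h4 : (p - 1) * wt u' + 1 ≤ (p - 3) * (v + one1).degree := by
        obtain ⟨q, hq⟩ : ∃ q, p = q + 3 := ⟨p - 3, by omega⟩
        have e1 : p - 1 = q + 2 := by omega
        have e3 : p - 3 = q := by omega
        rw [e1, e3, hvd]
        have h5 : n * e + 1 ≤ v.degree := by omega
        have h6 : 2 * (n * e) + 1 ≤ q := by omega
        have h7 : (q + 2) * wt u' ≤ (q + 2) * (n * e) := Nat.mul_le_mul_left _ hwt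
        have h8 : q * (n * e + 1 + n) ≤ q * (v.degree + n) := Nat.mul_le_mul_left _ (by omega)
        have h9 : q * (n * e + 1 + n) = q * (n * e) + q + q * n := by ring
        have h10 : (q + 2) * (n * e) = q * (n * e) + 2 * (n * e) := by ring
        have h11 : 0 ≤ q * n := Nat.zero_le _
        omega
      obtain ⟨r, hr⟩ := Nat.exists_eq_add_of_le h4
      refine ⟨S.lam ^ r * y, ?_⟩
      rw [hy, hr, pow_add, pow_succ]
      ring
  choose! y hy using hhigh
  -- the matrix
  refine ⟨fun u' u => ∑ v : Sd ι (bdeg u'),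
      π (x u' u v) * (LM H e he (bdeg u'))⁻¹ ⟨emb u', emb_mem_Sd u'⟩ v +
      ∑ v ∈ (DD ι N).filter (fun v => bdeg u' < v.degree),
        π (S.lam * y u' u v) * D'.rd (monomial v 1) u', fun u' u => ⟨?_, ?_⟩⟩
  · rw [Bm_eq]
    have hsub : Sd ι (bdeg u') ⊆ DD ι N := by
      intro v hv
      rw [mem_Sd] at hv
      rw [mem_DD, hv]
      have := wt_le u'
      rw [wt, ← hn] at this
      omega
    have hsplit : ∑ v ∈ DD ι N, π (S.ker (Sd ι (e + 1)) c (v + one1) (emb u + one1)) *
        D'.rd (monomial v 1) u' =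
        ∑ v ∈ Sd ι (bdeg u'), π (S.ker (Sd ι (e + 1)) c (v + one1) (emb u + one1)) *
          D'.rd (monomial v 1) u' +
        ∑ v ∈ (DD ι N).filter (fun v => bdeg u' < v.degree),
          π (S.ker (Sd ι (e + 1)) c (v + one1) (emb u + one1)) * D'.rd (monomial v 1) u' := by
      rw [← Finset.sum_filter_add_sum_filter_not (DD ι N) (fun v => bdeg u' < v.degree), add_comm]
      congr 1
      symm
      apply Finset.sum_subset
      · intro v hv
        rw [Finset.mem_filter]
        refine ⟨hsub hv, ?_⟩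
        rw [(mem_Sd _ _).1 hv]
        omega
      · intro v hv hv'
        rw [Finset.mem_filter] at hv
        rw [mem_Sd] at hv'
        rw [D'.rd_low v u' (by omega), mul_zero]
    rw [hsplit, mul_add]
    congr 1
    · rw [Finset.mul_sum, ← Finset.sum_coe_sort]
      refine Finset.sum_congr rfl fun v _ => ?_
      rw [hx u' u v, map_mul, map_pow, hDD', hD1 v.1 u' v.2]
      ring
    · rw [Finset.mul_sum]
      refine Finset.sum_congr rfl fun v hv => ?_
      rw [Finset.mem_filter] at hv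
      rw [hy u' u v hv.2, map_mul, map_pow]
      ring
  · have hρπ : ∀ z, ρ (π z) = S.res z := fun z => by
      rw [← hρ]; rfl
    rw [map_add, map_sum, map_sum]
    have hz : ∑ v ∈ (DD ι N).filter (fun v => bdeg u' < v.degree),
        ρ (π (S.lam * y u' u v) * D'.rd (monomial v 1) u') = 0 := by
      refine Finset.sum_eq_zero fun v _ => ?_
      rw [map_mul, hρπ, map_mul, S.res_lam, zero_mul, zero_mul]
    rw [hz, add_zero, Finset.mul_sum, bnum]
    refine Finset.sum_congr rfl fun v _ => ?_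
    rw [map_mul, hρπ, hx' u' u v]
    have hmap : (LM (form (e + 1) (fun s => S.res (c s) ^ p)) e he (bdeg u')) =
        ρ.mapMatrix (LM H e he (bdeg u')) := by
      rw [hH, map_LMf]
      congr 1
      congr 1
      funext s
      rw [hρπ, map_pow]
    have hDl : Dl p e he (fun s => S.res (c s)) (bdeg u') = ρ (LM H e he (bdeg u')).det := by
      rw [Dl, hmap, ← RingHom.map_det]
    have hadj : (LM (form (e + 1) (fun s => S.res (c s) ^ p)) e he (bdeg u')).adjugate
        ⟨emb u', emb_mem_Sd u'⟩ v =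
        ρ ((LM H e he (bdeg u')).adjugate ⟨emb u', emb_mem_Sd u'⟩ v) := by
      rw [hmap, ← RingHom.map_adjugate]
      rfl
    have hinv : (LM H e he (bdeg u')).det *
        (LM H e he (bdeg u'))⁻¹ ⟨emb u', emb_mem_Sd u'⟩ v =
        (LM H e he (bdeg u')).adjugate ⟨emb u', emb_mem_Sd u'⟩ v := by
      rw [Matrix.inv_def, Matrix.smul_apply, smul_eq_mul, ← mul_assoc,
        Ring.mul_inverse_cancel _ (hdet _), one_mul]
    rw [hDl, hadj, ← hinv, map_mul]
    ring

theorem h_BDiv (hRd : S_Rd) (hRdU : S_RdU) (hRes : S_Res) (hNat : S_Nat) : S_BDiv := by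
  intro ι _ _ p e _ K R L _ _ _ _ S π ρ c N he D' hρ hp2 hN hdet
  exact BDiv_aux hRd hRdU hRes ι p e K R L S π ρ c N he _ rfl D' _ rfl hρ hp2 hN hdet

end Pool.Agent.H795.BK

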